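import Pool.Agent.H430.Hf.Main

/-!
The inequality with one half of the discriminant.
-/

set_option autoImplicit false

namespace Pool.Agent.H430.Hf

open Finset NumberField IsDedekindDomain Height Module Polynomial
open Pool.Agent.W180.OP (Pl av wt fv nrm wt_nonneg le_nrm exists_nrm nrm_pos)
open Pool.Agent.NH28 (Ov nn ab mem_ab sum_nn one_le_nn nn_ext nn_nonneg exists_below ov_unique
  sum_split height_sum prod_formula fab mem_fab nrm_support ab_nonempty fv_sum_le sch_rat)
open Pool.Agent.H430.Cl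

theorem half_core {K : Type} [Field K] [NumberField K] {q : ℕ} (a : Fin q → K)
    (ha : Function.Injective a) (r : ℕ) :
    ∃ Z : Finset (Fin (r + 1) → K), (∀ z ∈ Z, z ≠ 0) ∧ ∀ (S : Finset (Pl K)) (ε : ℝ), 0 < ε →
      ∃ C : ℝ, ∀ (L E : Type) [Field L] [NumberField L] [Field E] [NumberField E]
      [Algebra K L] [Algebra L E] [Algebra K E] [IsScalarTower K L E] [IsGalois K E] (x : L),
      IntermediateField.adjoin K {x} = ⊤ → finrank K L = r →
      (∀ z ∈ Z, ∑ j, z j * (minpoly K x).coeff j ≠ 0) →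
      ∀ u : Pl K → Pl E, (∀ v ∈ S, Ov v (u v)) →
        ∑ v ∈ S, ∑ i, (∑ y ∈ cj K (algebraMap L E x), prx v (u v) (a i) y +
          ∑ y ∈ cj K (algebraMap L E x), ∑ z ∈ cj K (algebraMap L E x),
            min (prx v (u v) (a i) y) (prx v (u v) (a i) z)) ≤
        (2 * (r + 1) + ε) * logHeight ![1, x] + C := by
  classical
  rcases Nat.eq_zero_or_pos q with hq | hq
  · subst hq
    refine ⟨∅, fun z hz => absurd hz (notMem_empty z), fun S ε hε => ⟨0, ?_⟩⟩
    intro L E _ _ _ _ _ _ _ _ _ x _ _ _ u _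
    simp only [univ_eq_empty, sum_empty, sum_const_zero]
    have := logHeight_nonneg (![1, x] : Fin 2 → L)
    positivity
  obtain ⟨Z0, hZ0, hsch⟩ := sch_rat (k := K) (N := r + 1) (by omega)
    (fun t : Fin q × Fin (r + 1) => tf r (a t.1) (t.2 : ℕ))
  obtain ⟨Ch, hCh0, hCh⟩ := height_minpoly (K := K) r
  choose Cv hCv0 hCv using fun v : Pl K => place_half hq a ha v r
  refine ⟨Z0 ∪ univ.image (fun t : Fin q × Fin (r + 1) => tf r (a t.1) (t.2 : ℕ)), ?_, ?_⟩
  · intro z hz
    rcases mem_union.1 hz with h | h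
    · exact hZ0 z h
    · obtain ⟨t, _, rfl⟩ := mem_image.1 h
      exact tf_ne _ _
  intro S ε hε
  obtain ⟨C, hC0, hC⟩ := hsch S (ε / 2) (by positivity)
  refine ⟨2 * (((r + 1 : ℕ) + ε / 2) * Ch + C) + ∑ v ∈ S, Cv v, ?_⟩
  intro L E _ _ _ _ _ _ _ _ _ x hx hr hz u hu
  have hdeg : (minpoly K x).natDegree = r := by rw [minpoly_natDegree hx, hr]
  set F : Fin (r + 1) → K := fun j => (minpoly K x).coeff j with hF
  have hT : ∀ i, ∀ k ≤ r, (taylor (a i) (minpoly K x)).coeff k ≠ 0 := by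
    intro i k hk
    have h1 := hz (tf r (a i) k) (mem_union_right _ (mem_image.2 ⟨(i, ⟨k, by omega⟩), mem_univ _,
      rfl⟩))
    rwa [tf_apply r (a i) k _ hdeg.le] at h1
  have hF0 : F ≠ 0 := by
    intro h0
    have h1 := congrFun h0 ⟨r, by omega⟩
    have h2 : F ⟨r, by omega⟩ = 1 := by
      show (minpoly K x).coeff r = 1
      rw [← hdeg]
      exact (minpoly.monic (Algebra.IsIntegral.isIntegral x)).coeff_natDegree
    rw [h2] at h1
    exact one_ne_zero h1
  have hkey : ∀ v, ∃ β : Fin (r + 1) → Fin q × Fin (r + 1), v ∈ S →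
      LinearIndependent K (fun j => tf r (a (β j).1) ((β j).2 : ℕ)) ∧
        ∑ i, (∑ y ∈ cj K (algebraMap L E x), prx v (u v) (a i) y +
          ∑ y ∈ cj K (algebraMap L E x), ∑ z ∈ cj K (algebraMap L E x),
            min (prx v (u v) (a i) y) (prx v (u v) (a i) z)) ≤
        2 * (wt v * ∑ k, (Real.log (nrm (av v) F) -
          Real.log (av v (∑ j, tf r (a (β k).1) ((β k).2 : ℕ) j * F j)))) + Cv v := by
    intro v
    by_cases hv : v ∈ S
    · obtain ⟨β, h1, h2⟩ := hCv v L E x hx hr hT (u v) (hu v hv)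
      exact ⟨β, fun _ => ⟨h1, h2⟩⟩
    · exact ⟨fun _ => (⟨0, hq⟩, 0), fun h => absurd h hv⟩
  choose β hβ using hkey
  have hs := hC F hF0 (fun z hz' => hz z (mem_union_left _ hz')) (fun t => by
    have h1 := hz (tf r (a t.1) (t.2 : ℕ)) (mem_union_right _ (mem_image_of_mem _ (mem_univ t)))
    exact h1) β (fun v hv => (hβ v hv).1)
  refine (sum_le_sum fun v hv => (hβ v hv).2).trans ?_
  rw [sum_add_distrib, ← mul_sum]
  have hh := hCh L E x hx hr
  have h3 : (((r + 1 : ℕ) : ℝ) + ε / 2) * logHeight F ≤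
      ((r + 1 : ℕ) + ε / 2) * (logHeight ![1, x] + Ch) :=
    mul_le_mul_of_nonneg_left hh (by positivity)
  push_cast at h3 hs ⊢
  linarith

/-- the inequality with one half of the discriminant -/
theorem half_disc {K L E : Type} [Field K] [NumberField K] [Field L] [NumberField L]
    [Field E] [NumberField E] [Algebra K L] [Algebra L E] [Algebra K E] [IsScalarTower K L E]
    [IsGalois K E] {q : ℕ} (a : Fin q → K) {x : L} (hx : IntermediateField.adjoin K {x} = ⊤)
    (S : Finset (Pl K)) (u : Pl K → Pl E) (hu : ∀ v ∈ S, Ov v (u v)) (ε C : ℝ)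
    (h : ∑ v ∈ S, ∑ i, (∑ y ∈ cj K (algebraMap L E x), prx v (u v) (a i) y +
          ∑ y ∈ cj K (algebraMap L E x), ∑ z ∈ cj K (algebraMap L E x),
            min (prx v (u v) (a i) y) (prx v (u v) (a i) z)) ≤
        (2 * (finrank K L + 1) + ε) * logHeight ![1, x] + C) :
    ∑ v ∈ S, ∑ i, ∑ w ∈ ab L v, nn v w * prx v w (a i) x ≤
      (2 + ε / 2) * logHeight ![1, x] + (1 / 2) * ∑ᶠ v ∈ ((S : Set (Pl K))ᶜ), dsc v x +
      (1 / 2) * ∑ v ∈ S, ∑ p ∈ cjp K (algebraMap L E x), (rho v (u v) p.1 p.2 -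
        ∑ i, min (prx v (u v) (a i) p.1) (prx v (u v) (a i) p.2)) + C / 2 := by
  classical
  have hd : (minpoly K x).discr ≠ 0 := by
    have := discr_ne_zero (K := K) (algebraMap L E x)
    rwa [minpoly.algebraMap_eq (algebraMap L E).injective] at this
  rw [dsc_sum x hd S]
  have hloc : ∀ v ∈ S, ∑ p ∈ cjp K (algebraMap L E x), (rho v (u v) p.1 p.2 -
        ∑ i, min (prx v (u v) (a i) p.1) (prx v (u v) (a i) p.2)) =
      dsc v x + 2 * (∑ i, ∑ w ∈ ab L v, nn v w * prx v w (a i) x) -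
      ∑ i, (∑ y ∈ cj K (algebraMap L E x), prx v (u v) (a i) y +
          ∑ y ∈ cj K (algebraMap L E x), ∑ z ∈ cj K (algebraMap L E x),
            min (prx v (u v) (a i) y) (prx v (u v) (a i) z)) := by
    intro v hv
    have h1 : ∀ i, ∑ y ∈ cj K (algebraMap L E x), prx v (u v) (a i) y +
          ∑ y ∈ cj K (algebraMap L E x), ∑ z ∈ cj K (algebraMap L E x),
            min (prx v (u v) (a i) y) (prx v (u v) (a i) z) =
        2 * ∑ w ∈ ab L v, nn v w * prx v w (a i) x + ∑ p ∈ cjp K (algebraMap L E x),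
          min (prx v (u v) (a i) p.1) (prx v (u v) (a i) p.2) := by
      intro i
      rw [single_sum hx (hu v hv),
        sum_pairs (algebraMap L E x) (fun y z => min (prx v (u v) (a i) y) (prx v (u v) (a i) z))]
      have h2 : ∑ y ∈ cj K (algebraMap L E x), min (prx v (u v) (a i) y) (prx v (u v) (a i) y) =
          ∑ w ∈ ab L v, nn v w * prx v w (a i) x := by
        rw [← single_sum hx (hu v hv)]
        exact sum_congr rfl fun y _ => min_self _
      rw [h2]
      ring
    rw [sum_congr rfl (fun i _ => h1 i), sum_add_distrib, ← mul_sum, dsc_eq hx (hu v hv),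
      sum_comm (s := univ) (t := cjp K (algebraMap L E x)), sum_sub_distrib]
    ring
  rw [sum_congr rfl hloc, sum_sub_distrib, sum_add_distrib, ← mul_sum]
  linarith

end Pool.Agent.H430.Hf
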