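import Pool.Agent.H430.Hf.Loc

/-!
The inequality for generic closed points.
-/

set_option autoImplicit false

namespace Pool.Agent.H430.Hf

open Finset NumberField IsDedekindDomain Height Module Polynomial
open Pool.Agent.W180.OP (Pl av wt fv nrm wt_nonneg le_nrm exists_nrm nrm_pos)
open Pool.Agent.NH28 (Ov nn ab mem_ab sum_nn one_le_nn nn_ext nn_nonneg exists_below ov_unique
  sum_split height_sum prod_formula fab mem_fab nrm_support ab_nonempty fv_sum_le sch_rat)
open Pool.Agent.H430.Cl

/-- the height of the minimal polynomial -/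
lemma height_minpoly {K : Type} [Field K] [NumberField K] (r : ℕ) : ∃ C : ℝ, 0 ≤ C ∧
    ∀ (L E : Type) [Field L] [NumberField L] [Field E] [NumberField E] [Algebra K L]
      [Algebra L E] [Algebra K E] [IsScalarTower K L E] [IsGalois K E] (x : L),
      IntermediateField.adjoin K {x} = ⊤ → finrank K L = r →
      logHeight (fun j : Fin (r + 1) => (minpoly K x).coeff j) ≤ logHeight ![1, x] + C := by
  classical
  have hl : 0 ≤ (r : ℝ) * Real.log 2 :=
    mul_nonneg (Nat.cast_nonneg _) (Real.log_nonneg (by norm_num))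
  refine ⟨∑ _v : InfinitePlace K, 2 * (r * Real.log 2), sum_nonneg fun v _ => by positivity, ?_⟩
  intro L E _ _ _ _ _ _ _ _ _ x hx hr
  set F : Fin (r + 1) → K := fun j => (minpoly K x).coeff j with hF
  have hdeg : (minpoly K x).natDegree = r := by rw [minpoly_natDegree hx, hr]
  have hF0 : F ≠ 0 := by
    intro h0
    have h1 := congrFun h0 ⟨r, by omega⟩
    have h2 : F ⟨r, by omega⟩ = 1 := by
      show (minpoly K x).coeff r = 1
      rw [← hdeg]
      exact (minpoly.monic (Algebra.IsIntegral.isIntegral x)).coeff_natDegree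
    rw [h2] at h1
    exact one_ne_zero h1
  obtain ⟨T0, -, hT0⟩ := height_pl (K := K) x
  set G := (nrm_support hF0).toFinset with hG
  have hmem : ∀ v, v ∈ G ↔ nrm (fv v) F ≠ 1 := by
    intro v
    rw [hG, Set.Finite.mem_toFinset, Set.mem_ofPred_eq]
  set T : Finset (Pl K) := T0 ∪ (univ.image Sum.inl ∪ G.image Sum.inr) with hT
  have hinf : ∀ v : InfinitePlace K, (Sum.inl v : Pl K) ∈ T := fun v =>
    mem_union_right _ (mem_union_left _ (mem_image_of_mem _ (mem_univ v)))
  have h1 := height_sum hF0 T.toRight (fun v hv => by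
    rw [mem_toRight]
    exact mem_union_right _ (mem_union_right _ (mem_image_of_mem _ ((hmem v).2 hv))))
  have h2 : T.toLeft = univ := by
    ext v
    rw [mem_toLeft]
    simp [hinf v]
  have hvi : ∀ v : InfinitePlace K, (v.mult : ℝ) * Real.log (nrm v.1 F) ≤
      ∑ w ∈ ab L (Sum.inl v : Pl K), wt w * Real.log (max 1 (av w x)) +
        2 * (r * Real.log 2) := by
    intro v
    obtain ⟨u, hu⟩ := ab_nonempty E (Sum.inl v : Pl K)
    rw [← hu_sum hx (mem_ab.1 hu)]
    exact nrm_upper hx hr (mem_ab.1 hu)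
  have hvf : ∀ v : HeightOneSpectrum (𝓞 K), Real.log (nrm (fv v) F) ≤
      ∑ w ∈ ab L (Sum.inr v : Pl K), wt w * Real.log (max 1 (av w x)) := by
    intro v
    obtain ⟨u, hu⟩ := ab_nonempty E (Sum.inr v : Pl K)
    rw [← hu_sum hx (mem_ab.1 hu)]
    exact nrm_upper_fin hx hr (mem_ab.1 hu)
  rw [h1]
  refine (add_le_add (sum_le_sum fun v _ => hvi v) (sum_le_sum fun v _ => hvf v)).trans ?_
  have h3 : ∀ G : Pl K → ℝ, ∑ v ∈ T, G v = ∑ v, G (Sum.inl v) + ∑ v ∈ T.toRight, G (Sum.inr v) := by
    intro G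
    conv_lhs => rw [← toLeft_disjSum_toRight (u := T), sum_disjSum, h2]
  rw [← hT0 T (by intro v hv; exact mem_union_left _ hv), h3, sum_add_distrib]
  linarith

lemma tf_ne {K : Type} [Field K] {r : ℕ} (b : K) (k : Fin (r + 1)) : tf r b k ≠ 0 := by
  intro h0
  have h1 := congrFun h0 k
  have h2 : tf r b k k = 1 := by
    show (taylor b (X ^ (k : ℕ))).coeff k = 1
    have h3 : (taylor b (X ^ (k : ℕ) : K[X])).Monic := by
      rw [taylor_pow, taylor_X]
      exact (monic_X_add_C b).pow _
    have h4 : (taylor b (X ^ (k : ℕ) : K[X])).natDegree = k := by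
      rw [natDegree_taylor, natDegree_X_pow]
    conv_lhs => rw [← h4]
    rw [h4]
    have := h3.coeff_natDegree
    rwa [h4] at this
  rw [h2] at h1
  exact one_ne_zero h1

/-- the estimate at one place -/
theorem place_half {K : Type} [Field K] [NumberField K] {q : ℕ} (hq : 0 < q) (a : Fin q → K)
    (ha : Function.Injective a) (v : Pl K) (r : ℕ) :
    ∃ Cv : ℝ, 0 ≤ Cv ∧ ∀ (L E : Type) [Field L] [NumberField L] [Field E] [NumberField E]
      [Algebra K L] [Algebra L E] [Algebra K E] [IsScalarTower K L E] [IsGalois K E] (x : L),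
      IntermediateField.adjoin K {x} = ⊤ → finrank K L = r →
      (∀ i, ∀ k ≤ r, (taylor (a i) (minpoly K x)).coeff k ≠ 0) →
      ∀ u : Pl E, Ov v u → ∃ β : Fin (r + 1) → Fin q × Fin (r + 1),
        LinearIndependent K (fun j => tf r (a (β j).1) ((β j).2 : ℕ)) ∧
        ∑ i, (∑ y ∈ cj K (algebraMap L E x), prx v u (a i) y +
          ∑ y ∈ cj K (algebraMap L E x), ∑ z ∈ cj K (algebraMap L E x),
            min (prx v u (a i) y) (prx v u (a i) z)) ≤
        2 * (wt v * ∑ k, (Real.log (nrm (av v) (fun j : Fin (r + 1) => (minpoly K x).coeff j)) -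
          Real.log (av v (∑ j, tf r (a (β k).1) ((β k).2 : ℕ) j * (minpoly K x).coeff j)))) +
          Cv := by
  classical
  choose cl hcl0 hcl using fun i : Fin q => prx_lb v (a i)
  choose cm hcm0 hcm using fun t : {p : Fin q × Fin q // p.1 ≠ p.2} =>
    prx_min v (a t.1.1) (a t.1.2) (fun h => t.2 (ha h))
  set c0 : ℝ := ∑ i, cl i with hc0
  have hc00 : 0 ≤ c0 := sum_nonneg fun i _ => hcl0 _
  set c1 : ℝ := ∑ p, cm p with hc1
  have hc10 : 0 ≤ c1 := sum_nonneg fun i _ => hcm0 _
  set c2 : ℝ := 2 * (r * Real.log (r + 1)) + 2 * (r * Real.log 2) + r * c0 with hc2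
  have hc20 : 0 ≤ c2 := by
    have h1 : 0 ≤ Real.log ((r : ℝ) + 1) := Real.log_nonneg (by
      have : (0 : ℝ) ≤ r := Nat.cast_nonneg r
      linarith)
    have h2 : 0 ≤ Real.log (2 : ℝ) := Real.log_nonneg (by norm_num)
    positivity
  refine ⟨2 * ((r + 1) * c2) + q * (r * c1 + r * (r * c1)), by positivity, ?_⟩
  intro L E _ _ _ _ _ _ _ _ _ x hx hr hT u hu
  set Cj := cj K (algebraMap L E x) with hCj
  have hcard : Cj.card = r := by rw [hCj, card_cj' hx, hr]
  have hdeg : (minpoly K x).natDegree = r := by rw [minpoly_natDegree hx, hr]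
  have hya : ∀ i, ∀ y ∈ Cj, y ≠ algebraMap K E (a i) := by
    intro i y hy hya
    apply hT i 0 (Nat.zero_le _)
    rw [taylor_coeff_zero]
    have h1 := mem_cj.1 hy
    rw [minpoly.algebraMap_eq (algebraMap L E).injective, hya,
      aeval_algebraMap_apply_eq_algebraMap_eval] at h1
    exact (map_eq_zero _).1 h1
  have hlow : ∀ i, ∀ y ∈ Cj, 0 ≤ prx v u (a i) y + c0 := by
    intro i y hy
    have h1 := hcl i E u (mem_ab.2 hu) y (hya i y hy)
    have h2 : cl i ≤ c0 := single_le_sum (f := cl) (fun i _ => hcl0 _) (mem_univ i)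
    linarith
  have : Nonempty (Fin q) := ⟨⟨0, hq⟩⟩
  choose e he using fun y : E => Finite.exists_max fun i => prx v u (a i) y
  have hup : ∀ i, ∀ y ∈ Cj, i ≠ e y → prx v u (a i) y ≤ c1 := by
    intro i y hy hi
    have h1 := hcm ⟨(i, e y), hi⟩ E u (mem_ab.2 hu) y (hya i y hy) (hya (e y) y hy)
    have h2 := he y i
    simp only at h1
    rw [min_eq_left h2] at h1
    exact h1.trans (single_le_sum (f := cm) (fun i _ => hcm0 _) (mem_univ _))
  set W : Fin q → Finset E := fun i => Cj.filter (fun y => e y = i) with hW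
  have hWs : ∀ i, W i ⊆ Cj := fun i => filter_subset _ _
  have hWcard : ∑ i, (W i).card = r := by
    rw [← hcard]
    exact (card_eq_sum_card_fiberwise (f := e) (t := univ) fun _ _ => mem_univ _).symm
  choose s hs0 hs1 hs2 using fun i : Fin q => layer2 (W i) (fun y => prx v u (a i) y + c0)
    (fun y hy => hlow i y (hWs i hy))
  -- the multiplicities
  set i0 : Fin q := ⟨0, hq⟩ with hi0
  set m : Fin q → ℕ := fun i => (W i).card + if i = i0 then 1 else 0 with hm
  have hmsum : ∑ i, m i = r + 1 := by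
    simp only [hm]
    rw [sum_add_distrib, hWcard]
    simp
  have hmW : ∀ i, (W i).card ≤ m i := fun i => Nat.le_add_right _ _
  have hmr : ∀ i, m i ≤ r + 1 := fun i => by
    rw [← hmsum]
    exact single_le_sum (f := m) (fun _ _ => Nat.zero_le _) (mem_univ i)
  have hcardσ : Fintype.card (Σ i : Fin q, Fin (m i)) = r + 1 := by
    rw [Fintype.card_sigma]
    simp only [Fintype.card_fin]
    exact hmsum
  set eq : (Σ i : Fin q, Fin (m i)) ≃ Fin (r + 1) := Fintype.equivFinOfCardEq hcardσ with heq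
  set β : Fin (r + 1) → Fin q × Fin (r + 1) := fun j =>
    ((eq.symm j).1, ⟨(eq.symm j).2, lt_of_lt_of_le (eq.symm j).2.2 (hmr _)⟩) with hβ
  refine ⟨β, ?_, ?_⟩
  · refine tf_indep a ha m hmsum (fun j => ((β j).1, ((β j).2 : ℕ))) fun i k hk => ?_
    refine ⟨eq ⟨i, ⟨k, hk⟩⟩, ?_⟩
    exact Prod.ext (congrArg Sigma.fst (eq.symm_apply_apply ⟨i, ⟨k, hk⟩⟩))
      (congrArg (fun s : (Σ i : Fin q, Fin (m i)) => (s.2 : ℕ)) (eq.symm_apply_apply ⟨i, ⟨k, hk⟩⟩))
  · set F : Fin (r + 1) → K := fun j => (minpoly K x).coeff j with hF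
    have hterm : ∀ i, ∀ k : ℕ, k ≤ r → s i k - c2 ≤ wt v * (Real.log (nrm (av v) F) -
        Real.log (av v (∑ j : Fin (r + 1), tf r (a i) k j * (minpoly K x).coeff j))) := by
      intro i k hk
      obtain ⟨B, hB1, hB2, hB3⟩ := tay_upper hx hr hu (a i) (hya i) k hk (hT i k hk)
      rw [tf_apply r (a i) k _ hdeg.le, mul_sub]
      have h1 := nrm_lower (E := E) hx hr hu
      have h2 : s i k ≤ ∑ y ∈ B ∩ W i, (prx v u (a i) y + c0) := by
        refine hs1 i k (B ∩ W i) inter_subset_right ?_
        rw [← hB2]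
        refine card_le_card ?_
        intro y hy
        rw [mem_sdiff, mem_inter, not_and] at hy
        rw [mem_sdiff]
        exact ⟨hWs i hy.1, fun h => hy.2 h hy.1⟩
      have h3 : ∑ y ∈ B ∩ W i, (prx v u (a i) y + c0) ≤ ∑ y ∈ B, (prx v u (a i) y + c0) :=
        sum_le_sum_of_subset_of_nonneg inter_subset_left fun y hy _ => hlow i y (hB1 hy)
      have h4 : ∑ y ∈ B, (prx v u (a i) y + c0) ≤ ∑ y ∈ B, prx v u (a i) y + r * c0 := by
        rw [sum_add_distrib, sum_const, nsmul_eq_mul]
        have h5 : B.card ≤ r := by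
          rw [← hcard]
          exact card_le_card hB1
        have h6 : (B.card : ℝ) * c0 ≤ r * c0 :=
          mul_le_mul_of_nonneg_right (by exact_mod_cast h5) hc00
        linarith
      linarith
    -- the sum over `β`
    have hsum : ∑ i, ∑ k ∈ range (m i), (s i k - c2) ≤ wt v * ∑ k,
        (Real.log (nrm (av v) F) - Real.log (av v (∑ j, tf r (a (β k).1) ((β k).2 : ℕ) j *
          (minpoly K x).coeff j))) := by
      rw [mul_sum, ← eq.sum_comp, Fintype.sum_sigma]
      refine sum_le_sum fun i _ => ?_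
      rw [Finset.sum_range]
      refine sum_le_sum fun k _ => ?_
      have hb1 : (β (eq ⟨i, k⟩)).1 = i := congrArg Sigma.fst (eq.symm_apply_apply ⟨i, k⟩)
      have hb2 : ((β (eq ⟨i, k⟩)).2 : ℕ) = k :=
        congrArg (fun s : (Σ i : Fin q, Fin (m i)) => (s.2 : ℕ)) (eq.symm_apply_apply ⟨i, k⟩)
      rw [hb1, hb2]
      refine hterm i k ?_
      have := k.2
      have := hmr i
      omega
    have hsum2 : ∑ i, ∑ k ∈ range (m i), (s i k - c2) =
        ∑ i, (∑ w ∈ W i, (prx v u (a i) w + c0) + ∑ w ∈ W i, ∑ w' ∈ W i,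
          min (prx v u (a i) w + c0) (prx v u (a i) w' + c0)) / 2 - (r + 1) * c2 := by
      have h1 : ∀ i, ∑ k ∈ range (m i), (s i k - c2) = (∑ w ∈ W i, (prx v u (a i) w + c0) +
          ∑ w ∈ W i, ∑ w' ∈ W i, min (prx v u (a i) w + c0) (prx v u (a i) w' + c0)) / 2 -
            m i * c2 := by
        intro i
        rw [sum_sub_distrib, hs2 i (m i) (hmW i), sum_const, card_range, nsmul_eq_mul]
      rw [sum_congr rfl fun i _ => h1 i, sum_sub_distrib, ← sum_mul]
      congr 2
      exact_mod_cast hmsum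
    -- the comparison with the sum over all conjugates
    have hcmp : ∀ i, ∑ y ∈ Cj, prx v u (a i) y +
        ∑ y ∈ Cj, ∑ z ∈ Cj, min (prx v u (a i) y) (prx v u (a i) z) ≤
        ∑ w ∈ W i, (prx v u (a i) w + c0) + ∑ w ∈ W i, ∑ w' ∈ W i,
          min (prx v u (a i) w + c0) (prx v u (a i) w' + c0) + (r * c1 + r * (r * c1)) := by
      intro i
      have h1 : ∑ y ∈ Cj, prx v u (a i) y ≤ ∑ w ∈ W i, (prx v u (a i) w + c0) + r * c1 := by
        rw [← sum_filter_add_sum_filter_not Cj (fun y => e y = i)]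
        refine add_le_add (sum_le_sum fun y _ => by linarith) ?_
        refine (sum_le_card_nsmul _ _ c1 fun y hy => ?_).trans ?_
        · rw [mem_filter] at hy
          exact hup i y hy.1 (fun h => hy.2 h.symm)
        · rw [nsmul_eq_mul]
          refine mul_le_mul_of_nonneg_right ?_ hc10
          have : (Cj.filter fun y => ¬e y = i).card ≤ r := by
            rw [← hcard]
            exact card_filter_le _ _
          exact_mod_cast this
      have h2 : ∀ y ∈ Cj, ∀ z ∈ Cj, min (prx v u (a i) y) (prx v u (a i) z) ≤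
          (if e y = i then (if e z = i then min (prx v u (a i) y + c0) (prx v u (a i) z + c0)
            else 0) else 0) + c1 := by
        intro y hy z hz
        by_cases h3 : e y = i
        · by_cases h4 : e z = i
          · rw [if_pos h3, if_pos h4]
            have : min (prx v u (a i) y) (prx v u (a i) z) ≤
              min (prx v u (a i) y + c0) (prx v u (a i) z + c0) :=
              min_le_min (by linarith) (by linarith)
            linarith
          · rw [if_pos h3, if_neg h4, zero_add]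
            exact (min_le_right _ _).trans (hup i z hz (fun h => h4 h.symm))
        · rw [if_neg h3, zero_add]
          exact (min_le_left _ _).trans (hup i y hy (fun h => h3 h.symm))
      have h3 : ∑ y ∈ Cj, ∑ z ∈ Cj, min (prx v u (a i) y) (prx v u (a i) z) ≤
          ∑ w ∈ W i, ∑ w' ∈ W i, min (prx v u (a i) w + c0) (prx v u (a i) w' + c0) +
            r * (r * c1) := by
        refine (sum_le_sum fun y hy => sum_le_sum fun z hz => h2 y hy z hz).trans (le_of_eq ?_)
        simp_rw [sum_add_distrib, sum_const, nsmul_eq_mul, hcard]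
        congr 1
        rw [sum_filter]
        refine sum_congr rfl fun w _ => ?_
        by_cases h1 : e w = i
        · simp only [h1, if_true, hW, sum_filter]
        · simp only [h1, if_false, sum_const_zero]
      linarith
    have h5 := sum_le_sum fun i (_ : i ∈ (univ : Finset (Fin q))) => hcmp i
    have h6 : ∀ X : Fin q → ℝ, ∀ c : ℝ, ∑ i, (X i + c) = ∑ i, X i + q * c := by
      intro X c
      rw [sum_add_distrib, sum_const, card_univ, Fintype.card_fin, nsmul_eq_mul]
    rw [h6] at h5
    rw [hsum2, ← sum_div] at hsum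
    refine h5.trans ?_
    linarith

end Pool.Agent.H430.Hf
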