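import Pool.Agent.H430.Hf.Lay2

/-!
The Taylor coefficients of a polynomial at given points, as functionals of its coefficients.
-/

set_option autoImplicit false

namespace Pool.Agent.H430.Hf

open Finset Polynomial

section

variable {K : Type} [Field K]

/-- the functional `f ↦` the `k`-th Taylor coefficient of `f` at `b` -/
noncomputable def tf (r : ℕ) (b : K) (k : ℕ) : Fin (r + 1) → K :=
  fun j => (taylor b (X ^ (j : ℕ))).coeff k

lemma tf_apply (r : ℕ) (b : K) (k : ℕ) (f : K[X]) (hf : f.natDegree ≤ r) :
    ∑ j : Fin (r + 1), tf r b k j * f.coeff j = (taylor b f).coeff k := by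
  conv_rhs => rw [f.as_sum_range' (r + 1) (Nat.lt_succ_of_le hf)]
  rw [map_sum, finsetSum_coeff, Finset.sum_range]
  refine sum_congr rfl fun j _ => ?_
  have h : (monomial (j : ℕ) (f.coeff j) : K[X]) = f.coeff j • X ^ (j : ℕ) := by
    rw [smul_X_eq_monomial]
  rw [h, map_smul, coeff_smul, smul_eq_mul, mul_comm]
  rfl

lemma dvd_of_taylor (b : K) (m : ℕ) (f : K[X]) (h : ∀ k < m, (taylor b f).coeff k = 0) :
    (X - C b) ^ m ∣ f := by
  have h1 : (X : K[X]) ^ m ∣ taylor b f := X_pow_dvd_iff.2 h
  have h2 := (map_dvd (taylorAlgHom (-b)) h1)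
  simp only [taylorAlgHom_apply] at h2
  rw [taylor_taylor, neg_add_cancel, taylor_zero, taylor_pow, taylor_X, C_neg,
    ← sub_eq_add_neg] at h2
  exact h2

/-- the functionals are independent -/
lemma tf_indep {q r : ℕ} (a : Fin q → K) (ha : Function.Injective a) (m : Fin q → ℕ)
    (hm : ∑ i, m i = r + 1) (β : Fin (r + 1) → Fin q × ℕ)
    (hβ : ∀ i, ∀ k < m i, ∃ j, β j = (i, k)) :
    LinearIndependent K (fun j => tf r (a (β j).1) (β j).2) := by
  set A : Matrix (Fin (r + 1)) (Fin (r + 1)) K :=
    Matrix.of fun j => tf r (a (β j).1) (β j).2 with hA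
  have hinj : Function.Injective A.mulVec := by
    intro F G hFG
    have h0 : A.mulVec (F - G) = 0 := by rw [Matrix.mulVec_sub, hFG, sub_self]
    rw [← sub_eq_zero]
    set H := F - G with hH
    set f : K[X] := ∑ j : Fin (r + 1), C (H j) * X ^ (j : ℕ) with hf
    have hfc : ∀ j : Fin (r + 1), f.coeff j = H j := by
      intro j
      simp only [hf, finsetSum_coeff, coeff_C_mul, coeff_X_pow]
      rw [sum_eq_single j]
      · simp
      · intro b _ hb
        rw [if_neg (fun h => hb (Fin.ext h.symm)), mul_zero]
      · simp
    have hfd : f.natDegree ≤ r := by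
      refine natDegree_sum_le_of_forall_le _ _ fun j _ => ?_
      refine (natDegree_C_mul_X_pow_le _ _).trans ?_
      have := j.2
      omega
    have hT : ∀ i, ∀ k < m i, (taylor (a i) f).coeff k = 0 := by
      intro i k hk
      obtain ⟨j, hj⟩ := hβ i k hk
      rw [← tf_apply r (a i) k f hfd]
      have h1 := congrFun h0 j
      simp only [Matrix.mulVec, dotProduct, hA, Matrix.of_apply, hj, Pi.zero_apply] at h1
      rw [← h1]
      exact sum_congr rfl fun l _ => by rw [hfc]
    have hdvd : ∏ i, (X - C (a i)) ^ m i ∣ f := by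
      refine Finset.prod_dvd_of_coprime (fun i _ j _ hij => ?_) fun i _ => dvd_of_taylor _ _ _ (hT i)
      exact (isCoprime_X_sub_C_of_isUnit_sub (sub_ne_zero.2 fun h => hij (ha h)).isUnit).pow
    have hf0 : f = 0 := by
      by_contra hne
      have h1 := natDegree_le_of_dvd hdvd hne
      rw [natDegree_prod_of_monic _ _ fun _ _ => (monic_X_sub_C _).pow _] at h1
      have h2 : ∑ i, ((X - C (a i)) ^ m i).natDegree = ∑ i, m i :=
        sum_congr rfl fun i _ => by
          rw [(monic_X_sub_C _).natDegree_pow, natDegree_X_sub_C, mul_one]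
      rw [h2, hm] at h1
      omega
    funext j
    rw [← hfc j, hf0]
    simp
  have h1 := Matrix.mulVec_injective_iff_isUnit.1 hinj
  exact Matrix.linearIndependent_rows_iff_isUnit.2 h1

end

section

variable {E : Type} [Field E]

/-- the largest absolute value of the coefficients -/
noncomputable def cn (f : AbsoluteValue E ℝ) (P : E[X]) : ℝ :=
  ∑ k ∈ range (P.natDegree + 1), f (P.coeff k)

/-- the elementary form of the lemma of Gauss and Mahler: one linear factor -/
lemma coeff_factor (f : AbsoluteValue E ℝ) (g : E[X]) (y : E) (A : ℝ)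
    (hA : ∀ k, f (((X - C y) * g).coeff k) ≤ A) (n : ℕ) (hn : g.natDegree ≤ n) :
    ∀ k, f (g.coeff k) * max 1 (f y) ≤ (n + 1) * A := by
  have hA0 : 0 ≤ A := (f.nonneg _).trans (hA 0)
  have hc0 : ((X - C y) * g).coeff 0 = -(y * g.coeff 0) := by
    rw [sub_mul, coeff_sub, X_mul, coeff_mul_X_zero, coeff_C_mul, zero_sub]
  have hcs : ∀ k, ((X - C y) * g).coeff (k + 1) = g.coeff k - y * g.coeff (k + 1) := by
    intro k
    rw [sub_mul, coeff_sub, X_mul, coeff_mul_X, coeff_C_mul]
  rcases le_total (f y) 1 with hy | hy
  · -- small root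
    rw [max_eq_left hy]
    have key : ∀ j, ∀ k, n ≤ k + j → f (g.coeff k) ≤ (j + 1) * A := by
      intro j
      induction j with
      | zero =>
        intro k hk
        have h1 : g.coeff (k + 1) = 0 := coeff_eq_zero_of_natDegree_lt (by omega)
        have h2 := hA (k + 1)
        rw [hcs, h1, mul_zero, sub_zero] at h2
        simpa using h2
      | succ j ih =>
        intro k hk
        have h1 := ih (k + 1) (by omega)
        have h2 := hA (k + 1)
        rw [hcs] at h2
        have h3 : f (g.coeff k) ≤ f (g.coeff k - y * g.coeff (k + 1)) +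
            f (y * g.coeff (k + 1)) := by
          have := f.add_le (g.coeff k - y * g.coeff (k + 1)) (y * g.coeff (k + 1))
          simpa using this
        have h4 : f (y * g.coeff (k + 1)) ≤ f (g.coeff (k + 1)) := by
          rw [map_mul]
          exact mul_le_of_le_one_left (f.nonneg _) hy
        push_cast
        linarith
    intro k
    rw [mul_one]
    refine (key n k (by omega)).trans ?_
    exact le_rfl
  · -- large root
    rw [max_eq_right hy]
    have hy0 : 0 < f y := by linarith
    have key : ∀ k, f (g.coeff k) * f y ≤ (k + 1) * A := by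
      intro k
      induction k with
      | zero =>
        have h2 := hA 0
        rw [hc0, f.map_neg, map_mul] at h2
        push_cast
        linarith
      | succ k ih =>
        have h2 := hA (k + 1)
        rw [hcs] at h2
        have h3 : f (y * g.coeff (k + 1)) ≤ f (g.coeff k) +
            f (g.coeff k - y * g.coeff (k + 1)) := by
          have := f.sub_le (g.coeff k) 0 (g.coeff k - y * g.coeff (k + 1))
          simp only [sub_zero, zero_sub, f.map_neg] at this
          have e : g.coeff k - (g.coeff k - y * g.coeff (k + 1)) = y * g.coeff (k + 1) := by ring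
          rwa [e] at this
        rw [map_mul, mul_comm] at h3
        have h4 : f (g.coeff k) ≤ f (g.coeff k) * f y := le_mul_of_one_le_right (f.nonneg _) hy
        push_cast
        linarith
    intro k
    by_cases hk : k ≤ n
    · refine (key k).trans (mul_le_mul_of_nonneg_right ?_ hA0)
      have : (k : ℝ) ≤ n := by exact_mod_cast hk
      linarith
    · rw [coeff_eq_zero_of_natDegree_lt (by omega), f.map_zero, zero_mul]
      positivity

/-- the lemma of Gauss and Mahler: the product of the `max (1, |y|)` over the roots is bounded by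
the coefficients -/
lemma prod_max_le (f : AbsoluteValue E ℝ) (s : Finset E) (A : ℝ)
    (hA : ∀ k, f ((∏ y ∈ s, (X - C y)).coeff k) ≤ A) :
    ∏ y ∈ s, max 1 (f y) ≤ (s.card + 1) ^ s.card * A := by
  classical
  induction s using Finset.induction_on generalizing A with
  | empty =>
    have := hA 0
    simpa using this
  | insert y s hy ih =>
    rw [prod_insert hy] at hA
    rw [prod_insert hy, card_insert_of_notMem hy]
    set g := ∏ y ∈ s, (X - C y) with hg
    have hdeg : g.natDegree ≤ s.card := by
      rw [hg, natDegree_prod_of_monic _ _ fun _ _ => monic_X_sub_C _]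
      simp
    have h1 := coeff_factor f g y A hA s.card hdeg
    have hm : 0 < max 1 (f y) := lt_of_lt_of_le one_pos (le_max_left _ _)
    have hA0 : 0 ≤ A := (f.nonneg _).trans (hA 0)
    have h2 := ih ((s.card + 1) * A / max 1 (f y)) (fun k => by
      rw [le_div_iff₀ hm]
      exact h1 k)
    have h3 : max 1 (f y) * ∏ y ∈ s, max 1 (f y) ≤
        (s.card + 1) ^ s.card * ((s.card + 1) * A) := by
      have h4 := mul_le_mul_of_nonneg_left h2 hm.le
      have e : max 1 (f y) * (((s.card : ℝ) + 1) ^ s.card * ((s.card + 1) * A / max 1 (f y))) =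
          (s.card + 1) ^ s.card * ((s.card + 1) * A) := by
        field_simp
      rwa [e] at h4
    refine h3.trans ?_
    have e2 : ((s.card : ℝ) + 1) ^ s.card * ((s.card + 1) * A) = (s.card + 1) ^ (s.card + 1) * A := by
      ring
    rw [e2]
    push_cast
    refine mul_le_mul_of_nonneg_right ?_ hA0
    exact pow_le_pow_left₀ (by positivity) (by linarith) _

end

end Pool.Agent.H430.Hf
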