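import Pool.Agent.H430.Cl.Fin

/-!
A layer cake formula for the partial sums of a finite family of real numbers.
-/

set_option autoImplicit false

namespace Pool.Agent.H430.Hf

open MeasureTheory Finset
open Pool.Agent.H430.Cl (st st_mul st_nonneg st_eq st_int int_st)

lemma sum_pos_nat (k A : ℕ) (h : k ≤ A) :
    ∑ a ∈ range A, max ((k : ℝ) - a) 0 = ((k : ℝ) + (k : ℝ) ^ 2) / 2 := by
  have h1 : ∀ A, ∑ a ∈ range A, ((k : ℝ) - a) = A * k - A * (A - 1) / 2 := by
    intro A
    induction A with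
    | zero => simp
    | succ A ih =>
      rw [sum_range_succ, ih]
      push_cast
      ring
  obtain ⟨B, rfl⟩ := Nat.exists_eq_add_of_le h
  rw [sum_range_add]
  have h2 : ∑ a ∈ range k, max ((k : ℝ) - a) 0 = ∑ a ∈ range k, ((k : ℝ) - a) := by
    refine sum_congr rfl fun a ha => max_eq_left ?_
    have := mem_range.1 ha
    have : (a : ℝ) ≤ k := by exact_mod_cast this.le
    linarith
  have h3 : ∑ a ∈ range B, max ((k : ℝ) - ((k + a : ℕ) : ℝ)) 0 = 0 := by
    refine sum_eq_zero fun a _ => max_eq_right ?_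
    push_cast
    have : (0 : ℝ) ≤ a := Nat.cast_nonneg a
    linarith
  rw [h2, h3, h1]
  ring

theorem layer2 {ι : Type} [DecidableEq ι] (W : Finset ι) (lam : ι → ℝ)
    (hlam : ∀ w ∈ W, 0 ≤ lam w) :
    ∃ s : ℕ → ℝ, (∀ a, 0 ≤ s a) ∧
      (∀ a, ∀ B, B ⊆ W → (W \ B).card ≤ a → s a ≤ ∑ w ∈ B, lam w) ∧
      ∀ A, W.card ≤ A → ∑ a ∈ range A, s a = (∑ w ∈ W, lam w +
        ∑ w ∈ W, ∑ w' ∈ W, min (lam w) (lam w')) / 2 := by
  set T : ℝ := ∑ w ∈ W, lam w with hT
  have hle : ∀ w ∈ W, lam w ≤ T := fun w hw => single_le_sum (f := lam) hlam hw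
  set N : ℝ → ℝ := fun t => ∑ w ∈ W, st (lam w) t with hN
  have hNn : ∀ t, ∃ k : ℕ, k ≤ W.card ∧ N t = k := by
    intro t
    refine ⟨(W.filter fun w => t < lam w).card, card_filter_le _ _, ?_⟩
    simp only [hN]
    rw [card_filter, Nat.cast_sum]
    refine sum_congr rfl fun w _ => ?_
    unfold st
    by_cases h : t < lam w <;> simp [Set.indicator, h]
  set μ : Measure ℝ := volume.restrict (Set.Ioc 0 T) with hμ
  have hst : ∀ l, Integrable (st l) μ := fun l => st_int T l
  have hNi : Integrable N μ := integrable_finsetSum _ fun w _ => hst _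
  have hNa : ∀ a : ℕ, Integrable (fun t => N t - a) μ := fun a =>
    hNi.sub (integrable_const _)
  have hpi : ∀ a : ℕ, Integrable (fun t => max (N t - a) 0) μ := fun a => (hNa a).pos_part
  have hint : ∀ l, 0 ≤ l → l ≤ T → ∫ t, st l t ∂μ = l := fun l h1 h2 => int_st h1 h2
  refine ⟨fun a => ∫ t, max (N t - a) 0 ∂μ, fun a => integral_nonneg fun t => le_max_right _ _,
    fun a B hB hc => ?_, fun A hA => ?_⟩
  · have h1 : ∫ t, ∑ w ∈ B, st (lam w) t ∂μ = ∑ w ∈ B, lam w := by
      rw [integral_finsetSum _ fun w _ => hst _]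
      exact sum_congr rfl fun w hw => hint _ (hlam w (hB hw)) (hle w (hB hw))
    rw [← h1]
    refine integral_mono (hpi a) (integrable_finsetSum _ fun w _ => hst _) fun t => ?_
    show max (N t - a) 0 ≤ ∑ w ∈ B, st (lam w) t
    refine max_le ?_ (sum_nonneg fun w _ => st_nonneg _ _)
    simp only [hN]
    rw [← sum_sdiff hB]
    have h2 : ∑ w ∈ W \ B, st (lam w) t ≤ (W \ B).card := by
      refine (sum_le_card_nsmul _ _ 1 fun w _ => ?_).trans (by simp)
      rcases st_eq (lam w) t with h | h <;> rw [h]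
      exact zero_le_one
    have h3 : (((W \ B).card : ℕ) : ℝ) ≤ a := by exact_mod_cast hc
    linarith
  · rw [(integral_finsetSum _ fun a _ => hpi a).symm]
    have h1 : (fun t => ∑ a ∈ range A, max (N t - a) 0) = fun t =>
        (1 / 2 : ℝ) * ∑ w ∈ W, (st (lam w) t + ∑ w' ∈ W, st (min (lam w) (lam w')) t) := by
      funext t
      obtain ⟨k, hk, hk'⟩ := hNn t
      rw [hk', sum_pos_nat k A (hk.trans hA), ← hk', sum_add_distrib]
      have h2 : N t ^ 2 = ∑ w ∈ W, ∑ w' ∈ W, st (min (lam w) (lam w')) t := by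
        rw [sq]
        simp only [hN]
        rw [sum_mul_sum]
        exact sum_congr rfl fun w _ => sum_congr rfl fun w' _ => st_mul _ _ _
      rw [h2]
      simp only [hN]
      ring
    have h2 : ∀ w ∈ W, Integrable (fun t => st (lam w) t +
        ∑ w' ∈ W, st (min (lam w) (lam w')) t) μ := fun w _ =>
      (hst _).add (integrable_finsetSum _ fun w' _ => hst _)
    rw [h1, integral_const_mul, integral_finsetSum _ h2]
    have h3 : ∀ w ∈ W, ∫ t, (st (lam w) t + ∑ w' ∈ W, st (min (lam w) (lam w')) t) ∂μ =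
        lam w + ∑ w' ∈ W, min (lam w) (lam w') := by
      intro w hw
      rw [integral_add (hst _) (integrable_finsetSum _ fun w' _ => hst _),
        integral_finsetSum _ fun w' _ => hst _, hint _ (hlam w hw) (hle w hw)]
      congr 1
      exact sum_congr rfl fun w' hw' => hint _ (le_min (hlam w hw) (hlam w' hw'))
        ((min_le_left _ _).trans (hle w hw))
    rw [sum_congr rfl h3, sum_add_distrib]
    ring

end Pool.Agent.H430.Hf
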