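import Pool.Agent.H430.Hf.Tay

/-!
Local estimates for the coefficients of the minimal polynomial.
-/

set_option autoImplicit false

namespace Pool.Agent.H430.Hf

open Finset NumberField IsDedekindDomain Height Module Polynomial
open Pool.Agent.W180.OP (Pl av wt fv nrm wt_nonneg le_nrm exists_nrm nrm_pos)
open Pool.Agent.NH28 (Ov nn ab mem_ab sum_nn one_le_nn nn_ext nn_nonneg exists_below ov_unique
  sum_split height_sum prod_formula fab mem_fab nrm_support ab_nonempty fv_sum_le)
open Pool.Agent.H430.Cl

/-- the logarithmic size -/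
noncomputable def hu {K E : Type} [Field K] [NumberField K] [Field E] [NumberField E]
    [Algebra K E] (v : Pl K) (u : Pl E) (y : E) : ℝ :=
  wt u * Real.log (max 1 (av u y)) / nn v u

lemma hu_nonneg {K E : Type} [Field K] [NumberField K] [Field E] [NumberField E]
    [Algebra K E] (v : Pl K) (u : Pl E) (y : E) : 0 ≤ hu v u y :=
  div_nonneg (mul_nonneg (wt_nonneg u) (Real.log_nonneg (le_max_left _ _))) (nn_nonneg v u)

lemma wt_div_le {K E : Type} [Field K] [NumberField K] [Field E] [NumberField E]
    [Algebra K E] {v : Pl K} {u : Pl E} (h : Ov v u) : wt u / nn v u ≤ 2 := by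
  have h1 := one_le_nn h
  rw [div_le_iff₀ (by linarith)]
  have := wt_le_two u
  linarith

/-- the coefficients of a product of linear factors -/
lemma coeff_le {E : Type} [Field E] (f : AbsoluteValue E ℝ) [DecidableEq E] (s : Finset E)
    (c : E → E) (k : ℕ) (hk : k ≤ s.card) :
    ∃ B, B ⊆ s ∧ (s \ B).card = k ∧
      f ((∏ y ∈ s, (X - C (c y))).coeff k) ≤ 2 ^ s.card * ∏ y ∈ B, f (c y) := by
  have h1 : (∏ y ∈ s, (X - C (c y))).coeff k =
      ∑ t ∈ s.powersetCard (s.card - k), ∏ i ∈ t, (-c i) := by
    rw [← Finset.prod_X_add_C_coeff s (fun y => -c y) hk]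
    congr 1
    refine prod_congr rfl fun y _ => ?_
    rw [C_neg, sub_eq_add_neg]
  have hne : (s.powersetCard (s.card - k)).Nonempty :=
    powersetCard_nonempty.2 (Nat.sub_le _ _)
  obtain ⟨B, hB, hmax⟩ := exists_max_image _ (fun t => ∏ i ∈ t, f (c i)) hne
  rw [mem_powersetCard] at hB
  refine ⟨B, hB.1, ?_, ?_⟩
  · rw [card_sdiff_of_subset hB.1, hB.2]
    omega
  · rw [h1]
    refine (f.sum_le _ _).trans ?_
    have h2 : ∀ t ∈ s.powersetCard (s.card - k), f (∏ i ∈ t, (-c i)) ≤ ∏ y ∈ B, f (c y) := by
      intro t ht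
      rw [map_prod]
      have : ∏ i ∈ t, f (-c i) = ∏ i ∈ t, f (c i) := prod_congr rfl fun i _ => f.map_neg _
      rw [this]
      exact hmax t ht
    refine (sum_le_card_nsmul _ _ _ h2).trans ?_
    rw [nsmul_eq_mul]
    refine mul_le_mul_of_nonneg_right ?_ (prod_nonneg fun _ _ => f.nonneg _)
    have h3 : (s.powersetCard (s.card - k)).card ≤ 2 ^ s.card := by
      rw [card_powersetCard]
      exact Nat.choose_le_two_pow _ _
    exact_mod_cast h3

section tower

variable {K L E : Type} [Field K] [NumberField K] [Field L] [NumberField L] [Field E]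
  [NumberField E] [Algebra K L] [Algebra L E] [Algebra K E] [IsScalarTower K L E]

lemma hu_sum [IsGalois K E] {x : L} (hx : IntermediateField.adjoin K {x} = ⊤) {v : Pl K}
    {u : Pl E} (h : Ov v u) : ∑ y ∈ cj K (algebraMap L E x), hu v u y =
      ∑ w ∈ ab L v, wt w * Real.log (max 1 (av w x)) := by
  have h2 := place_sum (E := E) hx h
    (fun w => wt w * Real.log (max 1 (av w x)) / nn v w)
    (fun y => hu v u y) (by
      intro σ w hw
      have hvw : Ov v w := ov_tower (pull_ov σ h) hw
      have e1 := pos_ext hw x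
      rw [pull_wt, pull_av] at e1
      unfold hu
      rw [log_max_eq _ ((av u).nonneg _), log_max_eq _ ((av w).nonneg _), e1,
        ← pull_nn σ h, nn_mul hvw hw, mul_comm (nn v w)]
      have h3 : nn w (pull σ u) ≠ 0 := by
        have := one_le_nn hw
        linarith
      rw [mul_div_mul_left _ _ h3])
  rw [h2]
  refine sum_congr rfl fun w hw => ?_
  have h3 : nn v w ≠ 0 := by
    have := one_le_nn (mem_ab.1 hw)
    linarith
  field_simp

/-- the minimal polynomial splits -/
lemma minpoly_map [IsGalois K E] (x : E) :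
    (minpoly K x).map (algebraMap K E) = ∏ z ∈ cj K x, (X - C z) := by
  classical
  have hfi : IsIntegral K x := Algebra.IsIntegral.isIntegral x
  have hmon : (minpoly K x).Monic := minpoly.monic hfi
  have hFs : ((minpoly K x).map (algebraMap K E)).Splits := IsGalois.splits K x
  have hroots : ((minpoly K x).map (algebraMap K E)).roots = (cj K x).val := by
    unfold cj
    rw [Multiset.toFinset_val, Multiset.dedup_eq_self.2 (aroots_nodup x)]
  rw [hFs.eq_prod_roots_of_monic (hmon.map _), hroots]
  rfl

lemma card_cj' [IsGalois K E] {x : L} (hx : IntermediateField.adjoin K {x} = ⊤) :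
    (cj K (algebraMap L E x)).card = finrank K L := by
  rw [card_cj, minpoly.algebraMap_eq (algebraMap L E).injective]
  have h1 := IntermediateField.adjoin.finrank (K := K) (x := x)
    (Algebra.IsIntegral.isIntegral x)
  rw [hx, IntermediateField.finrank_top'] at h1
  rw [h1]

lemma minpoly_natDegree {x : L} (hx : IntermediateField.adjoin K {x} = ⊤) :
    (minpoly K x).natDegree = finrank K L := by
  have h1 := IntermediateField.adjoin.finrank (K := K) (x := x)
    (Algebra.IsIntegral.isIntegral x)
  rw [hx, IntermediateField.finrank_top'] at h1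
  rw [h1]

/-- from `u` to `v` -/
lemma log_down {v : Pl K} {u : Pl E} (h : Ov v u) (c : K) :
    wt v * Real.log (av v c) = wt u * Real.log (av u (algebraMap K E c)) / nn v u := by
  rw [nn_ext h]
  have : nn v u ≠ 0 := by
    have := one_le_nn h
    linarith
  field_simp

/-- the coefficients of the minimal polynomial are not small -/
lemma nrm_lower [IsGalois K E] {x : L} (hx : IntermediateField.adjoin K {x} = ⊤) {r : ℕ}
    (hr : finrank K L = r) {v : Pl K} {u : Pl E} (h : Ov v u) :
    ∑ y ∈ cj K (algebraMap L E x), hu v u y - 2 * (r * Real.log (r + 1)) ≤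
      wt v * Real.log (nrm (av v) (fun j : Fin (r + 1) => (minpoly K x).coeff j)) := by
  classical
  have hnn : 0 < nn v u := by
    have := one_le_nn h
    linarith
  set f := minpoly K x with hf
  set F : Fin (r + 1) → K := fun j => f.coeff j with hF
  have hmin : f = minpoly K (algebraMap L E x) := by
    rw [hf, minpoly.algebraMap_eq (algebraMap L E).injective]
  have hdeg : f.natDegree = r := by rw [hf, minpoly_natDegree hx, hr]
  have hcard : (cj K (algebraMap L E x)).card = r := by rw [card_cj' hx, hr]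
  obtain ⟨j1, hj1⟩ := exists_nrm (av u) (by omega : 0 < r + 1)
    (fun j : Fin (r + 1) => algebraMap K E (F j))
  set A : ℝ := av u (algebraMap K E (F j1)) with hA
  have hle : ∀ j, av u (algebraMap K E (F j)) ≤ A := by
    intro j
    have := le_nrm (av u) (fun j : Fin (r + 1) => algebraMap K E (F j)) j
    rw [← hj1] at this
    exact this
  have hA1 : 1 ≤ A := by
    have h1 := hle ⟨r, by omega⟩
    have h2 : F ⟨r, by omega⟩ = 1 := by
      show f.coeff r = 1
      rw [← hdeg]
      exact (minpoly.monic (Algebra.IsIntegral.isIntegral x)).coeff_natDegree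
    rw [h2, map_one, map_one] at h1
    exact h1
  have hco : ∀ k, av u ((∏ y ∈ cj K (algebraMap L E x), (X - C y)).coeff k) ≤ A := by
    intro k
    rw [← minpoly_map, ← hmin, coeff_map]
    by_cases hk : k < r + 1
    · exact hle ⟨k, hk⟩
    · rw [coeff_eq_zero_of_natDegree_lt (by omega), map_zero, map_zero]
      linarith
  have h1 := prod_max_le (av u) _ A hco
  rw [hcard] at h1
  have hpos : ∀ y ∈ cj K (algebraMap L E x), max 1 (av u y) ≠ 0 := fun y _ =>
    (lt_of_lt_of_le one_pos (le_max_left _ _)).ne'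
  have h2 : ∑ y ∈ cj K (algebraMap L E x), Real.log (max 1 (av u y)) ≤
      r * Real.log (r + 1) + Real.log A := by
    rw [← Real.log_prod hpos]
    refine (Real.log_le_log (prod_pos fun y _ => lt_of_lt_of_le one_pos (le_max_left _ _))
      h1).trans (le_of_eq ?_)
    rw [Real.log_mul (by positivity) (by positivity), Real.log_pow]
  have h3 : ∑ y ∈ cj K (algebraMap L E x), hu v u y =
      wt u / nn v u * ∑ y ∈ cj K (algebraMap L E x), Real.log (max 1 (av u y)) := by
    unfold hu
    rw [mul_sum]
    exact sum_congr rfl fun y _ => by ring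
  have hw0 : 0 ≤ wt u / nn v u := div_nonneg (wt_nonneg u) hnn.le
  have h4 := mul_le_mul_of_nonneg_left h2 hw0
  have hF0 : F j1 ≠ 0 := by
    intro h0
    rw [hA, h0, map_zero, map_zero] at hA1
    linarith
  have h5 : wt u / nn v u * Real.log A = wt v * Real.log (av v (F j1)) := by
    rw [log_down h (F j1), hA]
    ring
  have h6 : wt v * Real.log (av v (F j1)) ≤ wt v * Real.log (nrm (av v) F) :=
    mul_le_mul_of_nonneg_left (Real.log_le_log ((av v).pos_iff.2 hF0) (le_nrm _ _ _))
      (wt_nonneg v)
  have hl : 0 ≤ (r : ℝ) * Real.log (r + 1) := by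
    have : 0 ≤ Real.log ((r : ℝ) + 1) := Real.log_nonneg (by
      have : (0 : ℝ) ≤ r := Nat.cast_nonneg r
      linarith)
    positivity
  have h7 := mul_le_mul_of_nonneg_right (wt_div_le h) hl
  rw [h3]
  rw [mul_add, h5] at h4
  linarith

/-- the Taylor coefficients of the minimal polynomial at a point -/
lemma tay_upper [IsGalois K E] [DecidableEq E] {x : L}
    (hx : IntermediateField.adjoin K {x} = ⊤) {r : ℕ}
    (hr : finrank K L = r) {v : Pl K} {u : Pl E} (h : Ov v u) (b : K)
    (hb : ∀ y ∈ cj K (algebraMap L E x), y ≠ algebraMap K E b) (k : ℕ) (hk : k ≤ r)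
    (hT : (taylor b (minpoly K x)).coeff k ≠ 0) :
    ∃ B, B ⊆ cj K (algebraMap L E x) ∧ (cj K (algebraMap L E x) \ B).card = k ∧
      wt v * Real.log (av v ((taylor b (minpoly K x)).coeff k)) ≤
        ∑ y ∈ cj K (algebraMap L E x), hu v u y - ∑ y ∈ B, prx v u b y +
          2 * (r * Real.log 2) := by
  have hnn : 0 < nn v u := by
    have := one_le_nn h
    linarith
  set Cj := cj K (algebraMap L E x) with hCj
  have hcard : Cj.card = r := by rw [hCj, card_cj' hx, hr]
  have hmin : minpoly K x = minpoly K (algebraMap L E x) := by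
    rw [minpoly.algebraMap_eq (algebraMap L E).injective]
  have h1 : algebraMap K E ((taylor b (minpoly K x)).coeff k) =
      (∏ y ∈ Cj, (X - C (y - algebraMap K E b))).coeff k := by
    rw [← coeff_map]
    congr 1
    have h2 : (taylor b (minpoly K x)).map (algebraMap K E) =
        taylor (algebraMap K E b) ((minpoly K x).map (algebraMap K E)) := by
      rw [taylor_apply, taylor_apply, map_comp]
      simp
    rw [h2, hmin, minpoly_map, ← taylorAlgHom_apply, map_prod]
    refine prod_congr rfl fun y _ => ?_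
    rw [taylorAlgHom_apply, map_sub, taylor_X, taylor_C, C_sub]
    ring
  obtain ⟨B, hB1, hB2, hB3⟩ := coeff_le (av u) Cj (fun y => y - algebraMap K E b) k (by omega)
  refine ⟨B, hB1, hB2, ?_⟩
  rw [← h1, hcard] at hB3
  have hne : ∀ y ∈ B, 0 < av u (y - algebraMap K E b) := fun y hy =>
    (av u).pos_iff.2 (sub_ne_zero.2 (hb y (hB1 hy)))
  have h3 : Real.log (av u (algebraMap K E ((taylor b (minpoly K x)).coeff k))) ≤
      r * Real.log 2 + ∑ y ∈ B, Real.log (av u (y - algebraMap K E b)) := by
    refine (Real.log_le_log ((av u).pos_iff.2 ((_root_.map_ne_zero _).2 hT)) hB3).trans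
      (le_of_eq ?_)
    rw [Real.log_mul (by positivity) (prod_ne_zero_iff.2 fun y hy => (hne y hy).ne'),
      Real.log_pow, Real.log_prod fun y hy => (hne y hy).ne']
  have hw0 : 0 ≤ wt u / nn v u := div_nonneg (wt_nonneg u) hnn.le
  have h4 := mul_le_mul_of_nonneg_left h3 hw0
  have h5 : wt u / nn v u * Real.log (av u (algebraMap K E ((taylor b (minpoly K x)).coeff k))) =
      wt v * Real.log (av v ((taylor b (minpoly K x)).coeff k)) := by
    rw [log_down h]
    ring
  have hl : 0 ≤ (r : ℝ) * Real.log 2 := mul_nonneg (Nat.cast_nonneg _) (Real.log_nonneg (by norm_num))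
  have h7 := mul_le_mul_of_nonneg_right (wt_div_le h) hl
  have h8 : wt u / nn v u * ∑ y ∈ B, Real.log (av u (y - algebraMap K E b)) =
      ∑ y ∈ B, (hu v u y - prx v u b y) := by
    rw [mul_sum]
    refine sum_congr rfl fun y _ => ?_
    unfold hu prx
    ring
  have h9 : ∑ y ∈ B, hu v u y ≤ ∑ y ∈ Cj, hu v u y :=
    sum_le_sum_of_subset_of_nonneg hB1 fun y _ _ => hu_nonneg v u y
  rw [h5, mul_add, h8, sum_sub_distrib] at h4
  linarith

/-- upper bound for the coefficients of the minimal polynomial -/
lemma nrm_upper [IsGalois K E] {x : L} (hx : IntermediateField.adjoin K {x} = ⊤) {r : ℕ}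
    (hr : finrank K L = r) {v : Pl K} {u : Pl E} (h : Ov v u) :
    wt v * Real.log (nrm (av v) (fun j : Fin (r + 1) => (minpoly K x).coeff j)) ≤
      ∑ y ∈ cj K (algebraMap L E x), hu v u y + 2 * (r * Real.log 2) := by
  classical
  have hnn : 0 < nn v u := by
    have := one_le_nn h
    linarith
  set Cj := cj K (algebraMap L E x) with hCj
  have hcard : Cj.card = r := by rw [hCj, card_cj' hx, hr]
  have hmin : minpoly K x = minpoly K (algebraMap L E x) := by
    rw [minpoly.algebraMap_eq (algebraMap L E).injective]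
  obtain ⟨j, hj⟩ := exists_nrm (av v) (by omega : 0 < r + 1)
    (fun j : Fin (r + 1) => (minpoly K x).coeff j)
  rw [← hj]
  have hhs : 0 ≤ ∑ y ∈ Cj, hu v u y := sum_nonneg fun y _ => hu_nonneg v u y
  have hl : 0 ≤ (r : ℝ) * Real.log 2 := mul_nonneg (Nat.cast_nonneg _) (Real.log_nonneg (by norm_num))
  rcases eq_or_ne ((minpoly K x).coeff j) 0 with h0 | h0
  · rw [h0, map_zero, Real.log_zero, mul_zero]
    linarith
  have h1 : algebraMap K E ((minpoly K x).coeff j) = (∏ y ∈ Cj, (X - C y)).coeff j := by
    rw [← coeff_map, hmin, minpoly_map]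
  obtain ⟨B, hB1, hB2, hB3⟩ := coeff_le (av u) Cj (fun y => y) j (by
    have := j.2
    omega)
  rw [← h1, hcard] at hB3
  have hmax : ∏ y ∈ B, av u y ≤ ∏ y ∈ Cj, max 1 (av u y) := by
    refine (prod_le_prod (fun y _ => (av u).nonneg _) fun y _ => le_max_right 1 (av u y)).trans ?_
    exact prod_le_prod_of_subset_of_one_le hB1 (fun y _ => (zero_le_one.trans (le_max_left _ _)))
      fun y _ _ => le_max_left _ _
  have h3 : Real.log (av u (algebraMap K E ((minpoly K x).coeff j))) ≤
      r * Real.log 2 + ∑ y ∈ Cj, Real.log (max 1 (av u y)) := by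
    have hpos : ∀ y ∈ Cj, max 1 (av u y) ≠ 0 := fun y _ =>
      (lt_of_lt_of_le one_pos (le_max_left _ _)).ne'
    refine (Real.log_le_log ((av u).pos_iff.2 ((_root_.map_ne_zero _).2 h0))
      (hB3.trans (mul_le_mul_of_nonneg_left hmax (by positivity)))).trans (le_of_eq ?_)
    rw [Real.log_mul (by positivity) (prod_ne_zero_iff.2 hpos), Real.log_pow, Real.log_prod hpos]
  have hw0 : 0 ≤ wt u / nn v u := div_nonneg (wt_nonneg u) hnn.le
  have h4 := mul_le_mul_of_nonneg_left h3 hw0
  have h5 : wt u / nn v u * Real.log (av u (algebraMap K E ((minpoly K x).coeff j))) =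
      wt v * Real.log (av v ((minpoly K x).coeff j)) := by
    rw [log_down h]
    ring
  have h7 := mul_le_mul_of_nonneg_right (wt_div_le h) hl
  have h8 : wt u / nn v u * ∑ y ∈ Cj, Real.log (max 1 (av u y)) = ∑ y ∈ Cj, hu v u y := by
    rw [mul_sum]
    refine sum_congr rfl fun y _ => ?_
    unfold hu
    ring
  rw [h5, mul_add, h8] at h4
  linarith

/-- upper bound for the coefficients of the minimal polynomial, finite places -/
lemma nrm_upper_fin [IsGalois K E] {x : L} (hx : IntermediateField.adjoin K {x} = ⊤) {r : ℕ}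
    (hr : finrank K L = r) {v : HeightOneSpectrum (𝓞 K)} {u : Pl E}
    (h : Ov (Sum.inr v : Pl K) u) :
    Real.log (nrm (fv v) (fun j : Fin (r + 1) => (minpoly K x).coeff j)) ≤
      ∑ y ∈ cj K (algebraMap L E x), hu (Sum.inr v : Pl K) u y := by
  classical
  cases u with
  | inl u => exact h.elim
  | inr u =>
    have hnn : 0 < nn (Sum.inr v : Pl K) (Sum.inr u : Pl E) := by
      have := one_le_nn h
      linarith
    set Cj := cj K (algebraMap L E x) with hCj
    have hcard : Cj.card = r := by rw [hCj, card_cj' hx, hr]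
    have hmin : minpoly K x = minpoly K (algebraMap L E x) := by
      rw [minpoly.algebraMap_eq (algebraMap L E).injective]
    obtain ⟨j, hj⟩ := exists_nrm (fv v) (by omega : 0 < r + 1)
      (fun j : Fin (r + 1) => (minpoly K x).coeff j)
    rw [← hj]
    have hhs : 0 ≤ ∑ y ∈ Cj, hu (Sum.inr v : Pl K) (Sum.inr u) y :=
      sum_nonneg fun y _ => hu_nonneg _ _ y
    rcases eq_or_ne ((minpoly K x).coeff j) 0 with h0 | h0
    · rw [h0, map_zero, Real.log_zero]
      linarith
    have hjr : (j : ℕ) ≤ Cj.card := by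
      have := j.2
      omega
    have h1 : algebraMap K E ((minpoly K x).coeff j) =
        ∑ t ∈ Cj.powersetCard (Cj.card - j), ∏ i ∈ t, (-i) := by
      rw [← coeff_map, hmin, minpoly_map, ← Finset.prod_X_add_C_coeff Cj (fun y => -y) hjr]
      congr 1
      refine prod_congr rfl fun y _ => ?_
      rw [C_neg, sub_eq_add_neg]
    have hmax : fv u (algebraMap K E ((minpoly K x).coeff j)) ≤ ∏ y ∈ Cj, max 1 (fv u y) := by
      rw [h1]
      refine fv_sum_le u _ _ _ (prod_nonneg fun y _ => zero_le_one.trans (le_max_left _ _)) ?_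
      intro t ht
      rw [mem_powersetCard] at ht
      rw [map_prod]
      have e : ∏ i ∈ t, fv u (-i) = ∏ i ∈ t, fv u i := prod_congr rfl fun i _ => (fv u).map_neg _
      rw [e]
      refine (prod_le_prod (fun y _ => (fv u).nonneg _) fun y _ => le_max_right 1 (fv u y)).trans ?_
      exact prod_le_prod_of_subset_of_one_le ht.1 (fun y _ => (zero_le_one.trans (le_max_left _ _)))
        fun y _ _ => le_max_left _ _
    have hpos : ∀ y ∈ Cj, max 1 (fv u y) ≠ 0 := fun y _ =>
      (lt_of_lt_of_le one_pos (le_max_left _ _)).ne'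
    have h3 : Real.log (fv u (algebraMap K E ((minpoly K x).coeff j))) ≤
        ∑ y ∈ Cj, Real.log (max 1 (fv u y)) := by
      rw [← Real.log_prod hpos]
      exact Real.log_le_log ((fv u).pos_iff.2 ((_root_.map_ne_zero _).2 h0)) hmax
    have h5 := log_down h ((minpoly K x).coeff j)
    have h5' : Real.log (fv v ((minpoly K x).coeff j)) =
        Real.log (fv u (algebraMap K E ((minpoly K x).coeff j))) /
          nn (Sum.inr v : Pl K) (Sum.inr u : Pl E) := by
      have e1 : wt (Sum.inr v : Pl K) * Real.log (av (Sum.inr v : Pl K) ((minpoly K x).coeff j)) =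
        Real.log (fv v ((minpoly K x).coeff j)) := one_mul _
      have e2 : wt (Sum.inr u : Pl E) * Real.log (av (Sum.inr u : Pl E)
        (algebraMap K E ((minpoly K x).coeff j))) =
          Real.log (fv u (algebraMap K E ((minpoly K x).coeff j))) := one_mul _
      rw [← e1, h5, e2]
    rw [h5', div_le_iff₀ hnn, sum_mul]
    refine h3.trans (le_of_eq (sum_congr rfl fun y _ => ?_))
    unfold hu
    rw [div_mul_cancel₀ _ hnn.ne']
    exact (one_mul _).symm

end tower

end Pool.Agent.H430.Hf
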